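import Pool.Agent.H29.LA.Targets
import Pool.Agent.H25.LS.Indep
import Pool.Agent.H25.LS.Small

/-!
# Row PNT: the point
-/

set_option autoImplicit false

open Polynomial IntermediateField
open scoped WithZero

namespace Pool.Agent.H39.LA

open Pool.Agent.H29.LA
open Pool.Agent.H25.LS (valMod valMod_apply exists_small)

/-- a pole -/
theorem pnt_val {K : Type} [Field K] (w : Valuation K ℤᵐ⁰) (n : ℕ) (r : ℤ) (q u : Kˣ)
    (hu : (u : K) = q + 1) (hr : ((r : ℤ) : ZMod n) ≠ 0)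
    (h1 : ((WithZero.log (w (q : K)) : ℤ) : ZMod n) = (r : ℤ))
    (h2 : ((WithZero.log (w (u : K)) : ℤ) : ZMod n) = (r : ℤ)) :
    ∃ a : ℤ, 0 < a ∧ w (q : K) = WithZero.exp a ∧ ((a : ℤ) : ZMod n) = (r : ℤ) := by
  have hq0 : w (q : K) ≠ 0 := (Valuation.ne_zero_iff w).2 q.ne_zero
  refine ⟨WithZero.log (w (q : K)), ?_, (WithZero.exp_log hq0).symm, h1⟩
  by_contra hle
  have hne : WithZero.log (w (q : K)) ≠ 0 := by
    intro h0
    rw [h0, Int.cast_zero] at h1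
    exact hr h1.symm
  have hlt : WithZero.log (w (q : K)) < 0 := lt_of_le_of_ne (not_lt.1 hle) hne
  have hw : w (q : K) < w 1 := by
    rw [map_one, ← WithZero.exp_zero, ← WithZero.exp_log hq0, WithZero.exp_lt_exp]
    exact hlt
  have hwu : w (u : K) = 1 := by
    rw [hu, Valuation.map_add_eq_of_lt_right w hw, map_one]
  rw [hwu, WithZero.log_one, Int.cast_zero] at h2
  exact hr h2.symm

theorem pnt_one {m : ℕ} {a : ℤ} (ha : 0 < a) (h : ((a : ℤ) : ZMod (4 * m)) = ((1 : ℤ) : ℤ)) :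
    ∃ k : ℕ, 0 < k ∧ k.Coprime m ∧ (k : ℤ) = a := by
  obtain ⟨j, hj⟩ := (ZMod.intCast_eq_intCast_iff_dvd_sub a 1 (4 * m)).1 h
  refine ⟨a.toNat, by omega, ?_, Int.toNat_of_nonneg ha.le⟩
  rw [← Nat.isCoprime_iff_coprime, Int.toNat_of_nonneg ha.le]
  refine ⟨1, 4 * j, ?_⟩
  push_cast at hj
  linarith

theorem pnt_two {m : ℕ} (hm : 0 < m) {a : ℤ} (ha : 0 < a)
    (h : ((a : ℤ) : ZMod (4 * m)) = ((2 * m : ℤ) : ℤ)) :
    ∃ r : ℕ, 0 < r ∧ ((r * m : ℕ) : ℤ) = a := by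
  obtain ⟨j, hj⟩ := (ZMod.intCast_eq_intCast_iff_dvd_sub a (2 * m) (4 * m)).1 h
  push_cast at hj
  have h1 : a = (2 - 4 * j) * m := by linarith
  have hm' : (0 : ℤ) < m := by exact_mod_cast hm
  have h2 : 0 < 2 - 4 * j := by
    rw [h1] at ha
    exact (mul_pos_iff_of_pos_right hm').1 ha
  refine ⟨(2 - 4 * j).toNat, by omega, ?_⟩
  push_cast
  rw [Int.toNat_of_nonneg h2.le, h1]

theorem pnt_ne1 {m : ℕ} : (((1 : ℤ) : ℤ) : ZMod (4 * m)) ≠ 0 := by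
  intro h
  have h' : (((1 : ℤ) : ℤ) : ZMod (4 * m)) = ((0 : ℤ) : ZMod (4 * m)) := by rw [h, Int.cast_zero]
  obtain ⟨j, hj⟩ := (ZMod.intCast_eq_intCast_iff_dvd_sub 1 0 (4 * m)).1 h'
  push_cast at hj
  have : (4 : ℤ) ∣ 1 := ⟨-((m : ℤ) * j), by linarith⟩
  omega

theorem pnt_ne2 {m : ℕ} (hm : 1 < m) : (((2 * m : ℤ) : ℤ) : ZMod (4 * m)) ≠ 0 := by
  intro h
  have h' : (((2 * m : ℤ) : ℤ) : ZMod (4 * m)) = ((0 : ℤ) : ZMod (4 * m)) := by
    rw [h, Int.cast_zero]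
  obtain ⟨j, hj⟩ := (ZMod.intCast_eq_intCast_iff_dvd_sub (2 * m) 0 (4 * m)).1 h'
  push_cast at hj
  have hm' : (0 : ℤ) < m := by exact_mod_cast (by omega : 0 < m)
  have h1 : (m : ℤ) * (2 * (1 + 2 * j)) = 0 := by linarith
  rcases mul_eq_zero.1 h1 with h2 | h2 <;> omega

/-- the element with the prescribed values -/
theorem pnt_elt {F M V : Type} [Field F] [Field M] [Algebra F M] [Finite (M ≃ₐ[F] M)]
    [CommGroup V] (ρ : Mˣ →* V) (hρ : ∀ a : V, a ^ 2 = 1) (w : Valuation M ℤᵐ⁰) (m : ℕ) (g : Mˣ)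
    (hg : ρ g = 1) (hw : w (g : M) = WithZero.exp (1 : ℤ))
    (hd : ∀ d : M ≃ₐ[F] M, d ≠ 1 → w (d g) = 1) :
    ∃ h : Mˣ, ρ h = 1 ∧ w (h : M) = WithZero.exp (1 : ℤ) ∧
      ∀ d : M ≃ₐ[F] M, d ≠ 1 → w (d h) = WithZero.exp (2 * m : ℤ) := by
  classical
  have : Fintype (M ≃ₐ[F] M) := Fintype.ofFinite _
  let S : Finset (M ≃ₐ[F] M) := Finset.univ.filter (fun d => d ≠ 1)
  let h : Mˣ := g * ∏ d ∈ S, (Units.map ((d⁻¹ : M ≃ₐ[F] M) : M →* M) g) ^ (2 * m)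
  have hS : ∀ d, d ∈ S ↔ d ≠ 1 := fun d => by simp [S]
  have hh : ∀ d : M ≃ₐ[F] M, w (d h) = w (d g) * ∏ d' ∈ S, w ((d * d'⁻¹) g) ^ (2 * m) := by
    intro d
    have e1 : (h : M) = g * ∏ d' ∈ S, ((d'⁻¹ : M ≃ₐ[F] M) (g : M)) ^ (2 * m) := by
      change ((g * ∏ d ∈ S, (Units.map ((d⁻¹ : M ≃ₐ[F] M) : M →* M) g) ^ (2 * m) : Mˣ) : M) = _
      rw [Units.val_mul, Units.coe_prod]
      rfl
    rw [e1, map_mul, map_mul, map_prod, map_prod]
    congr 1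
    refine Finset.prod_congr rfl fun d' _ => ?_
    rw [map_pow, map_pow]
    rfl
  refine ⟨h, ?_, ?_, ?_⟩
  · change ρ (g * ∏ d ∈ S, (Units.map ((d⁻¹ : M ≃ₐ[F] M) : M →* M) g) ^ (2 * m)) = 1
    rw [map_mul, hg, map_prod, one_mul]
    refine Finset.prod_eq_one fun d _ => ?_
    rw [map_pow, pow_mul, hρ, one_pow]
  · have h1 := hh 1
    change w (h : M) = w (g : M) * _ at h1
    rw [h1, hw, Finset.prod_eq_one, mul_one]
    intro d' hd'
    rw [one_mul, hd _ (inv_ne_one.2 ((hS d').1 hd')), one_pow]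
  · intro d hd1
    rw [hh d, hd d hd1, one_mul, Finset.prod_eq_single d]
    · rw [mul_inv_cancel]
      change w (g : M) ^ (2 * m) = _
      rw [hw, ← WithZero.exp_nsmul]
      congr 1
      rw [nsmul_eq_mul]; push_cast; ring
    · intro d' _ hne
      have h2 : d * d'⁻¹ ≠ 1 := fun h => hne (mul_inv_eq_one.1 h).symm
      rw [hd _ h2, one_pow]
    · intro h
      exact absurd ((hS d).2 hd1) h

theorem pf_PNT (hTRN : T_TRN) (hCHR : T_CHR) (hPCK : T_PCK) (hIND : T_IND) : T_PNT := by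
  classical
  intro F Ω _ _ _ _ _ _ m M _ _ Γ f x₀ z₀ D Γ₀ _ v c hS hm hm0 hFG hRam hD hsp hsq hv hc
  obtain ⟨V, _, _, ρ, hρ2, hρ⟩ := hCHR F Ω M Γ hFG
  obtain ⟨E, hE0, hE⟩ := hTRN F Ω m M f x₀ z₀ (by omega) hm0 hRam
  have hρfi : ρ.ker.FiniteIndex := by
    have : Finite (Mˣ ⧸ ρ.ker) :=
      Finite.of_equiv _ (QuotientGroup.quotientKerEquivRange ρ).symm.toEquiv
    exact Subgroup.finiteIndex_of_finite_quotient
  obtain ⟨g, hgρ, w, hwE, hwg, hwd⟩ := hIND F M ρ.ker E hS hE0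
  obtain ⟨h0, hh0ρ, hh0w, hh0d⟩ := pnt_elt (F := F) ρ hρ2 w m g hgρ hwg hwd
  have hMinf : Infinite M := Infinite.of_injective _ (algebraMap F M).injective
  have hnz : NeZero (4 * m) := ⟨by omega⟩
  -- the total character
  let χ : Mˣ →* V × ((M ≃ₐ[F] M) → Multiplicative (ZMod (4 * m))) :=
    MonoidHom.prod ρ (MonoidHom.pi fun d : M ≃ₐ[F] M =>
      (valMod w (4 * m)).comp (Units.map (d : M →* M)))
  have hκ0 : D.leadingCoeff * ((D.roots.filter (fun a => a ≠ x₀)).map (fun a => x₀ - a)).prod ≠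
      0 := by
    refine mul_ne_zero (leadingCoeff_ne_zero.2 hD) ?_
    refine Multiset.prod_ne_zero fun h => ?_
    obtain ⟨a, ha, ha0⟩ := Multiset.mem_map.1 h
    exact (Multiset.mem_filter.1 ha).2 (sub_eq_zero.1 ha0).symm
  let κ : Mˣ := Units.mk0 _ hκ0
  obtain ⟨s₀, hs0, hs⟩ := exists_small F Ω v hv c hc
  obtain ⟨q, u, y, hu, hχq, hχu, hq, hy, hχy⟩ := hPCK M _ χ D x₀ κ h0 Γ₀ (v.comap (algebraMap M Ω))
    (v c) (algebraMap F M s₀) hD hsp (by simp [κ]) ((_root_.map_ne_zero _).2 hs0) hs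
  have hqd : ∀ d : M ≃ₐ[F] M, ((WithZero.log (w ((Units.map (d : M →* M) q : Mˣ) : M)) : ℤ) :
      ZMod (4 * m)) = ((WithZero.log (w (d h0)) : ℤ) : ZMod (4 * m)) := fun d =>
    Multiplicative.ofAdd.injective (congrFun (congrArg Prod.snd hχq) d)
  have hud : ∀ d : M ≃ₐ[F] M, ((WithZero.log (w ((Units.map (d : M →* M) u : Mˣ) : M)) : ℤ) :
      ZMod (4 * m)) = ((WithZero.log (w (d h0)) : ℤ) : ZMod (4 * m)) := fun d =>
    Multiplicative.ofAdd.injective (congrFun (congrArg Prod.snd hχu) d)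
  have hudq : ∀ d : M ≃ₐ[F] M, ((Units.map (d : M →* M) u : Mˣ) : M) =
      ((Units.map (d : M →* M) q : Mˣ) : M) + 1 := by
    intro d
    change d (u : M) = d (q : M) + 1
    rw [hu, map_add, map_one]
  have hinv : ∀ (d : M ≃ₐ[F] M) (a : ℤ), w ((Units.map (d : M →* M) q : Mˣ) : M) = WithZero.exp a →
      w (d (x₀ + ((q⁻¹ : Mˣ) : M) - x₀)) = WithZero.exp (-a) := by
    intro d a ha
    have e1 : x₀ + ((q⁻¹ : Mˣ) : M) - x₀ = ((q : M))⁻¹ := by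
      rw [add_sub_cancel_left, Units.val_inv_eq_inv_val]
    rw [e1, map_inv₀, map_inv₀, WithZero.exp_neg]
    change (w ((Units.map (d : M →* M) q : Mˣ) : M))⁻¹ = _
    rw [ha]
  refine ⟨x₀ + ((q⁻¹ : Mˣ) : M), ?_, ?_, ?_, ?_⟩
  · intro h
    simp at h
  · have e1 : ((x₀ + ((q⁻¹ : Mˣ) : M) : M) : Ω) - (x₀ : Ω) = algebraMap M Ω ((q⁻¹ : Mˣ) : M) := by
      change ((x₀ : Ω) + (((q⁻¹ : Mˣ) : M) : Ω)) - (x₀ : Ω) = _
      rw [add_sub_cancel_left]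
      rfl
    rw [e1]
    exact hq
  · intro h2 α hα
    have hρy : ρ y = 1 := by
      have h3 : ρ y = ρ κ * (ρ h0)⁻¹ ^ D.rootMultiplicity x₀ := congrArg Prod.fst hχy
      rw [h3, hh0ρ, inv_one, one_pow, mul_one]
      obtain ⟨s, hs⟩ := hsq h2
      have hs0 : s ≠ 0 := by
        rintro rfl
        rw [zero_pow two_ne_zero] at hs
        exact hκ0 hs.symm
      have e : κ = Units.mk0 s hs0 ^ 2 := Units.ext hs.symm
      rw [e, map_pow, hρ2]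
    rw [← hy] at hα
    exact hρ h2 y hρy α hα
  · refine hE w ((g⁻¹ : Mˣ) : M) _ hwE ?_ ?_ ?_
    · rw [Units.val_inv_eq_inv_val, map_inv₀, hwg, WithZero.exp_neg]
    · have e0 : ((WithZero.log (w ((1 : M ≃ₐ[F] M) h0)) : ℤ) : ZMod (4 * m)) =
          (((1 : ℤ) : ℤ) : ZMod (4 * m)) := by
        change ((WithZero.log (w (h0 : M)) : ℤ) : ZMod (4 * m)) = _
        rw [hh0w, WithZero.log_exp]
      obtain ⟨a, ha, haq, har⟩ := pnt_val w (4 * m) 1 (Units.map ((1 : M ≃ₐ[F] M) : M →* M) q)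
        (Units.map ((1 : M ≃ₐ[F] M) : M →* M) u) (hudq 1) pnt_ne1 ((hqd 1).trans e0)
        ((hud 1).trans e0)
      obtain ⟨k, hk, hkm, hka⟩ := pnt_one ha har
      exact ⟨k, hk, hkm, by rw [hka]; exact hinv 1 a haq⟩
    · intro d hd1
      have e0 : ((WithZero.log (w (d h0)) : ℤ) : ZMod (4 * m)) =
          (((2 * m : ℤ) : ℤ) : ZMod (4 * m)) := by
        rw [hh0d d hd1, WithZero.log_exp]
      obtain ⟨a, ha, haq, har⟩ := pnt_val w (4 * m) (2 * m) (Units.map (d : M →* M) q)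
        (Units.map (d : M →* M) u) (hudq d) (pnt_ne2 hm) ((hqd d).trans e0) ((hud d).trans e0)
      obtain ⟨r, hr, hra⟩ := pnt_two (by omega) ha har
      exact ⟨r, hr, by rw [hra]; exact hinv d a haq⟩

end Pool.Agent.H39.LA
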